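import Pool.Agent.MP_cce4c9_lc.H87.SpecR

/-!
The size of the value set from the point counts of the fibre powers modulo small primes.
-/

set_option autoImplicit false

open Polynomial Finset Pool.Agent.Shared.H56 Pool.Agent.MP_cce4c9_lc.H87

namespace Pool.Agent.MP_cce4c9_lc.H90

/-! ### Counting -/

/-- The polynomial that vanishes at `0` and is `d !` on `1, ..., d`. -/
noncomputable def PP (d : ℕ) : ℤ[X] :=
  C (d.factorial : ℤ) - ∏ j ∈ range d, (C ((j : ℤ) + 1) - X)

theorem PP_natDegree (d : ℕ) : (PP d).natDegree < d + 1 := by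
  refine Nat.lt_succ_of_le ((natDegree_sub_le _ _).trans (max_le (by simp) ?_))
  refine (natDegree_prod_le _ _).trans ?_
  refine (Finset.sum_le_card_nsmul _ _ 1 fun j _ => ?_).trans (by simp)
  exact (natDegree_sub_le _ _).trans (max_le (by rw [natDegree_C]; omega) natDegree_X_le)

theorem PP_zero (d : ℕ) : (PP d).eval 0 = 0 := by
  simp only [PP, eval_sub, eval_C, eval_prod, eval_X, sub_zero]
  rw [← Finset.prod_range_add_one_eq_factorial]
  push_cast
  exact sub_self _

theorem PP_pos {d r : ℕ} (h0 : r ≠ 0) (hr : r ≤ d) : (PP d).eval (r : ℤ) = d.factorial := by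
  simp only [PP, eval_sub, eval_C, eval_prod, eval_X]
  rw [Finset.prod_eq_zero (i := r - 1) (mem_range.2 (by omega)), sub_zero]
  omega

theorem PP_eval (d : ℕ) (x : ℤ) :
    (PP d).eval x = ∑ m ∈ range d, (PP d).coeff (m + 1) * x ^ (m + 1) := by
  rw [eval_eq_sum_range' (PP_natDegree d), Finset.sum_range_succ', coeff_zero_eq_eval_zero,
    PP_zero, zero_mul, add_zero]

theorem count_pow {F : Type} [Fintype F] [DecidableEq F] (g : F → F) (m : ℕ) :
    {a : Fin (m + 1) → F | ∀ i j, g (a i) = g (a j)}.ncard =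
      ∑ t : F, (univ.filter fun a => g a = t).card ^ (m + 1) := by
  classical
  rw [Set.ncard_eq_toFinset_card', Set.toFinset_ofPred,
    Finset.card_eq_sum_card_fiberwise (f := fun a : Fin (m + 1) → F => g (a 0)) (t := univ)
      (fun _ _ => mem_univ _)]
  refine Finset.sum_congr rfl fun t _ => ?_
  rw [← Fintype.card_piFinset_const]
  congr 1
  ext a
  simp only [mem_filter, mem_univ, true_and, Fintype.mem_piFinset]
  exact ⟨fun h i => (h.1 i 0).trans h.2, fun h => ⟨fun i j => (h i).trans (h j).symm, h 0⟩⟩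

theorem count_val {F : Type} [Fintype F] [DecidableEq F] (g : F → F) (d : ℕ)
    (hg : ∀ t, (univ.filter fun a => g a = t).card ≤ d) :
    ((d.factorial * (Set.range g).ncard : ℕ) : ℤ) = ∑ m ∈ range d, (PP d).coeff (m + 1) *
      (({a : Fin (m + 1) → F | ∀ i j, g (a i) = g (a j)}.ncard : ℕ) : ℤ) := by
  classical
  simp only [count_pow]
  push_cast
  simp only [Finset.mul_sum]
  rw [Finset.sum_comm]
  simp only [← PP_eval]
  rw [Set.ncard_eq_toFinset_card', Set.toFinset_range, Finset.card_eq_sum_ones]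
  push_cast
  rw [Finset.mul_sum, mul_one]
  symm
  rw [← Finset.sum_subset (Finset.subset_univ (univ.image g))]
  · refine Finset.sum_congr rfl fun t ht => PP_pos ?_ (hg t)
    obtain ⟨a, -, ha⟩ := Finset.mem_image.1 ht
    exact Finset.card_ne_zero.2 ⟨a, by simp [ha]⟩
  · intro t _ ht
    rw [Finset.filter_eq_empty_iff.2 fun a _ h => ht (Finset.mem_image.2 ⟨a, mem_univ _, h⟩)]
    simpa using PP_zero d

theorem fibre_le {F : Type} [Field F] [Fintype F] [DecidableEq F] (f : F[X])
    (hf : 0 < f.natDegree) (t : F) : (univ.filter fun a => f.eval a = t).card ≤ f.natDegree := by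
  have hd : 0 < f.degree := natDegree_pos_iff_degree_pos.1 hf
  refine le_trans (Finset.card_le_card (t := (f - C t).roots.toFinset) fun a ha => ?_)
    ((Multiset.toFinset_card_le _).trans (card_roots_sub_C' hd))
  rw [Multiset.mem_toFinset, mem_roots_sub_C hd]
  exact (mem_filter.1 ha).2

/-! ### Primes -/

theorem card_primes (s : ℕ) (hs : 0 < s) : s ≤ (Nat.primesLE (4 * s ^ 2)).card := by
  by_contra hc
  push Not at hc
  have hn : 4 * s ^ 2 ≠ 0 := by positivity
  have h1 := Chebyshev.two_pow_le_mul_lcmUpto (4 * s ^ 2)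
  have h2 : Nat.lcmUpto (4 * s ^ 2) ≤ (4 * s ^ 2 + 1) ^ (Nat.primesLE (4 * s ^ 2)).card := by
    rw [Nat.lcmUpto_eq_prod_pow_log]
    exact Finset.prod_le_pow_card _ _ _ fun p _ => (Nat.pow_log_le_self p hn).trans (Nat.le_succ _)
  have h3 : (4 * s ^ 2 + 1) ^ ((Nat.primesLE (4 * s ^ 2)).card + 1) ≤ (4 * s ^ 2 + 1) ^ s :=
    Nat.pow_le_pow_right (by omega) hc
  have h4 : 4 * s ^ 2 + 1 < 2 ^ (2 * s + 2) := by
    have h5 : s + 1 ≤ 2 ^ s := Nat.lt_two_pow_self
    have h6 : 2 ^ (2 * s + 2) = 4 * (2 ^ s) ^ 2 := by ring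
    rw [h6]
    nlinarith
  have h7 : (4 * s ^ 2 + 1) ^ s < (2 ^ (2 * s + 2)) ^ s := Nat.pow_lt_pow_left h4 (by omega)
  have h8 : (2 ^ (2 * s + 2)) ^ s ≤ 2 ^ (4 * s ^ 2) := by
    rw [← pow_mul]
    exact Nat.pow_le_pow_right (by omega) (by nlinarith)
  have h9 := Nat.mul_le_mul_left (4 * s ^ 2 + 1) h2
  rw [← pow_succ'] at h9
  omega

theorem prod_primes (k p : ℕ) :
    2 ^ k ≤ ∏ l ∈ (Nat.primesLE (4 * (k + 1) ^ 2)).erase p, l := by
  have h1 := card_primes (k + 1) (by omega)
  have h2 := Finset.pred_card_le_card_erase (s := Nat.primesLE (4 * (k + 1) ^ 2)) (a := p)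
  refine le_trans (Nat.pow_le_pow_right (by omega) (by omega))
    (Finset.pow_card_le_prod _ _ 2 fun l hl => ?_)
  exact Nat.two_le_of_mem_primesLE (Finset.mem_of_mem_erase hl)

theorem crt_eq (S : Finset ℕ) (hS : ∀ l ∈ S, l.Prime) (a : ℕ → ℕ) (N : ℕ)
    (hN : N < ∏ l ∈ S, l) (ha : ∀ l ∈ S, (a l : ZMod l) = N) :
    (∑ l ∈ S, a l * ((∏ l' ∈ S, l') / l) ^ (l - 1)) % (∏ l ∈ S, l) = N := by
  have hdiv : ∀ l ∈ S, (∏ l' ∈ S, l') / l = ∏ l' ∈ S.erase l, l' := by
    intro l hl
    rw [← Finset.mul_prod_erase S (fun x => x) hl, Nat.mul_div_cancel_left _ (hS l hl).pos]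
  have key : ∀ l ∈ S,
      ((∑ l ∈ S, a l * ((∏ l' ∈ S, l') / l) ^ (l - 1) : ℕ) : ZMod l) = N := by
    intro l hl
    have := Fact.mk (hS l hl)
    rw [Nat.cast_sum, Finset.sum_eq_single_of_mem l hl, hdiv l hl]
    · rw [Nat.cast_mul, Nat.cast_pow, ZMod.pow_card_sub_one_eq_one, mul_one, ha l hl]
      rw [Nat.cast_prod]
      refine Finset.prod_ne_zero_iff.2 fun l' hl' h0 => ?_
      have h1 := (ZMod.natCast_eq_zero_iff _ _).1 h0
      exact Finset.ne_of_mem_erase hl'
        ((Nat.prime_dvd_prime_iff_eq (hS l hl) (hS l' (Finset.mem_of_mem_erase hl'))).1 h1).symm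
    · intro l' hl' hne
      have h2 := (hS l' hl').two_le
      rw [hdiv l' hl', Nat.cast_mul, Nat.cast_pow, Nat.cast_prod,
        Finset.prod_eq_zero (Finset.mem_erase.2 ⟨hne.symm, hl⟩) (ZMod.natCast_self l),
        zero_pow (by omega), mul_zero]
  rw [← Nat.mod_eq_of_lt hN]
  refine (Nat.modEq_iff_dvd).2 (Int.natCast_dvd.2 ?_)
  refine Finset.prod_primes_dvd _ (fun l hl => (hS l hl).prime) fun l hl => ?_
  exact Int.natCast_dvd.1 ((Nat.modEq_iff_dvd).1 ((ZMod.natCast_eq_natCast_iff _ _ _).1 (key l hl)))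

/-! ### The algorithm -/

/-- Trial division. -/
def isP (Y l : ℕ) : Bool :=
  decide (2 ≤ l) && (List.range (min l Y)).all fun j => decide (j < 2) || l % j != 0

/-- The primes up to `Y` other than `p`. -/
def prs (Y p : ℕ) : List ℕ := (List.range (Y + 1)).filter fun l => isP Y l && l != p

/-- Recombination. -/
def crt (Y p : ℕ) (a : ℕ → ℕ) : ℕ :=
  ((prs Y p).map fun l => a (min l Y) * ((prs Y p).prod / l) ^ (min l Y - 1)).sum % (prs Y p).prod

theorem isP_iff {Y l : ℕ} (h : l ≤ Y) : isP Y l = true ↔ l.Prime := by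
  rw [Nat.prime_def_lt', isP, min_eq_left h]
  simp only [Bool.and_eq_true, decide_eq_true_eq, List.all_eq_true, List.mem_range,
    Bool.or_eq_true, bne_iff_ne, ne_eq, ← Nat.dvd_iff_mod_eq_zero]
  refine and_congr_right fun _ => ⟨fun h m h2 hm => (h m hm).resolve_left (by omega),
    fun h m hm => ?_⟩
  by_cases h2 : m < 2
  · exact Or.inl h2
  · exact Or.inr (h m (by omega) hm)

theorem prs_nodup (Y p : ℕ) : (prs Y p).Nodup := List.nodup_range.filter _

theorem prs_toFinset (Y p : ℕ) : (prs Y p).toFinset = (Nat.primesLE Y).erase p := by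
  ext l
  simp only [prs, List.mem_toFinset, List.mem_filter, List.mem_range, Bool.and_eq_true,
    bne_iff_ne, Finset.mem_erase, Nat.mem_primesLE]
  constructor
  · rintro ⟨h1, h2, h3⟩
    exact ⟨h3, by omega, (isP_iff (by omega)).1 h2⟩
  · rintro ⟨h1, h2, h3⟩
    exact ⟨by omega, (isP_iff h2).2 h3, h1⟩

theorem crt_spec (k p : ℕ) (a : ℕ → ℕ) (N : ℕ) (hN : N < 2 ^ k)
    (ha : ∀ l, l.Prime → l ≠ p → (a l : ZMod l) = N) : crt (4 * (k + 1) ^ 2) p a = N := by
  have hp : (prs (4 * (k + 1) ^ 2) p).prod =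
      ∏ l ∈ (Nat.primesLE (4 * (k + 1) ^ 2)).erase p, l := by
    rw [← prs_toFinset, List.prod_toFinset (fun l => l) (prs_nodup _ _), List.map_id']
  rw [crt, ← List.sum_toFinset _ (prs_nodup _ _), hp, prs_toFinset,
    ← crt_eq ((Nat.primesLE (4 * (k + 1) ^ 2)).erase p)
      (fun l hl => Nat.prime_of_mem_primesLE (Finset.mem_of_mem_erase hl)) a N
      (hN.trans_le (prod_primes k p)) fun l hl =>
        ha l (Nat.prime_of_mem_primesLE (Finset.mem_of_mem_erase hl)) (Finset.ne_of_mem_erase hl)]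
  congr 1
  refine Finset.sum_congr rfl fun l hl => ?_
  rw [min_eq_left (Nat.le_of_mem_primesLE (Finset.mem_of_mem_erase hl))]

section
variable {α : Type} [N487b59b3 α]

theorem pt_isP {Y l : α → ℕ} (hY : PT fun x => un (Y x)) (hl : PT l) :
    PT fun x => isP (Y x) (l x) := by
  unfold isP
  refine PT.and (by fun_prop) (PT.all (f := fun x j => decide (j < 2) || l x % j != 0) ?_
    (hl.un_min hY).range)
  fun_prop

theorem pt_prs {Y p : α → ℕ} (hY : PT fun x => un (Y x)) (hp : PT p) :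
    PT fun x => prs (Y x) (p x) := by
  unfold prs
  refine PT.filter (f := fun x l => isP (Y x) l && l != p x) ?_
    (hY.un_add (PT.const (un 1))).range
  exact (pt_isP (hY.comp PT.id'.fst) PT.id'.snd).and (by fun_prop)

theorem pt_crt {Y p : α → ℕ} {a : α → ℕ → ℕ} (hY : PT fun x => un (Y x)) (hp : PT p)
    (ha : PT fun q : List Bool × α => a q.2 q.1.length) : PT fun x => crt (Y x) (p x) (a x) := by
  unfold crt
  have h1 := pt_prs hY hp
  refine PT.mod (PT.sum (PT.map (f := fun x l =>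
    a x (min l (Y x)) * ((prs (Y x) (p x)).prod / l) ^ (min l (Y x) - 1)) ?_ h1)) h1.prod
  have h2 : PT fun q : α × ℕ => un (min q.2 (Y q.1)) := PT.id'.snd.un_min (hY.comp PT.id'.fst)
  refine PT.mul ?_ (PT.pow ((h1.prod.comp PT.id'.fst).div PT.id'.snd) (h2.un_sub (PT.const 1)))
  exact (ha.comp (h2.prodMk PT.id'.fst)).congr fun q => by simp

theorem pt_finsum (n : ℕ) (f : ℕ → α → ℕ) (hf : ∀ i < n, PT (f i)) :
    PT fun x => ∑ i ∈ range n, f i x := by
  induction n with
  | zero => exact (PT.const 0).congr fun _ => by simp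
  | succ n ih =>
    exact ((ih fun i hi => hf i (by omega)).add (hf n (by omega))).congr fun _ => by
      rw [Finset.sum_range_succ]

end

theorem cast_coef (l : ℕ) (hl : 0 < l) (γ : ℤ) :
    ((γ.toNat + (l - 1) * (-γ).toNat : ℕ) : ZMod l) = (γ : ZMod l) := by
  have h1 : ((l - 1 : ℕ) : ZMod l) = -1 := by
    rw [Nat.cast_sub hl, ZMod.natCast_self]
    simp
  have h2 : γ = (γ.toNat : ℤ) - ((-γ).toNat : ℤ) := (Int.toNat_sub_toNat_neg γ).symm
  conv_rhs => rw [h2]
  push_cast
  rw [h1]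
  ring

theorem val1 : StmtCORE → StmtVAL1 := by
  intro hC d hd
  choose A hA hspec using fun m : ℕ => hC d (m + 1) hd (Nat.succ_pos m)
  refine ⟨fun x => crt (4 * (sz (d.factorial * x.1.1 ^ dim x.1) + 1) ^ 2) x.1.1 (fun l =>
    ∑ m ∈ range d, (((PP d).coeff (m + 1)).toNat + (l - 1) * (-(PP d).coeff (m + 1)).toNat) *
      A m (un l, x)) / d.factorial, ?_, ?_⟩
  · refine PT.div (pt_crt ?_ (by fun_prop) ?_) (PT.const _)
    · have h1 : PT fun x : Ds × List El => d.factorial * x.1.1 ^ dim x.1 := by fun_prop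
      exact (PT.const (un 4)).un_mul (pt_un_pow (h1.un_sz.un_add (PT.const (un 1))) 2)
    · refine pt_finsum d (fun m (q : List Bool × Ds × List El) =>
        (((PP d).coeff (m + 1)).toNat + (q.1.length - 1) * (-(PP d).coeff (m + 1)).toNat) *
          A m (un q.1.length, q.2)) fun m _ => PT.mul (by fun_prop) ?_
      exact (hA m).comp (PT.id'.fst.un_length.prodMk PT.id'.snd)
  · intro F _ D π fl hfl hlen hder
    classical
    have := π.finite
    have := Fintype.ofFinite F
    have hdeg : (toM π.val fl).natDegree = d := (toM_natDegree _ _).trans hfl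
    have hcount := count_val (fun a : F => (toM π.val fl).eval a) d fun t =>
      (fibre_le _ (by omega) t).trans hdeg.le
    simp only
    rw [crt_spec _ _ _ (d.factorial * (Set.range fun a : F => (toM π.val fl).eval a).ncard),
      Nat.mul_div_cancel_left _ d.factorial_pos]
    · refine lt_of_le_of_lt (Nat.mul_le_mul_left _ ?_) (lt_two_pow_sz _)
      rw [← π.card]
      exact Set.ncard_le_card _
    · intro l hl hlp
      have h2 := congrArg (Int.cast : ℤ → ZMod l) hcount
      rw [Int.cast_natCast] at h2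
      rw [h2, Nat.cast_sum, Int.cast_sum]
      refine Finset.sum_congr rfl fun m _ => ?_
      rw [Nat.cast_mul, cast_coef l hl.pos, hspec m F D π fl l hfl hlen hder hl hlp, Int.cast_mul,
        Int.cast_natCast]

end Pool.Agent.MP_cce4c9_lc.H90
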